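import Pool.Agent.K3h16.MI.Stm

/-!
Moebius invariance of the nu-weighted energy (MP_34b615_gt): the kernel near the diagonal.
-/

open MeasureTheory Set Filter Topology
open scoped ContDiff

namespace Pool.Agent.K3h61.MI

open Pool.Agent.K3h16.MI

lemma kdet_smul {m n : ℕ} (α : ℝ) (v w : Fin m → E n) (r : E n) {t : ℝ} (ht : t ≠ 0) :
    kdet α v w (t • r) = kdet α v w r := by
  unfold kdet
  congr 1
  ext i j
  simp only [Matrix.of_apply, real_inner_smul_left, real_inner_smul_right, norm_smul, mul_pow,
    Real.norm_eq_abs, sq_abs]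
  rcases eq_or_ne r 0 with rfl | hr
  · simp
  · have : ‖r‖ ≠ 0 := norm_ne_zero_iff.mpr hr
    field_simp

lemma kdet_neg {m n : ℕ} (α : ℝ) (v w : Fin m → E n) (r : E n) :
    kdet α v w (-r) = kdet α v w r := by
  have := kdet_smul α v w r (t := -1) (by norm_num)
  simpa using this

lemma entry_le {n : ℕ} (α : ℝ) (v w r : E n) :
    |inner ℝ v w + α * (inner ℝ v r * inner ℝ r w / ‖r‖ ^ 2)| ≤ (1 + |α|) * (‖v‖ * ‖w‖) := by
  have h1 : |inner ℝ v w| ≤ ‖v‖ * ‖w‖ := abs_real_inner_le_norm v w
  have h2 : |inner ℝ v r * inner ℝ r w / ‖r‖ ^ 2| ≤ ‖v‖ * ‖w‖ := by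
    rcases eq_or_ne r 0 with rfl | hr
    · simp; positivity
    · have hr' : 0 < ‖r‖ := norm_pos_iff.mpr hr
      rw [abs_div, abs_mul, abs_of_pos (by positivity : (0 : ℝ) < ‖r‖ ^ 2),
        div_le_iff₀ (by positivity)]
      calc |inner ℝ v r| * |inner ℝ r w| ≤ (‖v‖ * ‖r‖) * (‖r‖ * ‖w‖) :=
            mul_le_mul (abs_real_inner_le_norm _ _) (abs_real_inner_le_norm _ _)
              (abs_nonneg _) (by positivity)
        _ = ‖v‖ * ‖w‖ * ‖r‖ ^ 2 := by ring
  calc |inner ℝ v w + α * (inner ℝ v r * inner ℝ r w / ‖r‖ ^ 2)|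
      ≤ |inner ℝ v w| + |α * (inner ℝ v r * inner ℝ r w / ‖r‖ ^ 2)| := abs_add_le _ _
    _ ≤ ‖v‖ * ‖w‖ + |α| * (‖v‖ * ‖w‖) := by
        rw [abs_mul]
        exact add_le_add h1 (mul_le_mul_of_nonneg_left h2 (abs_nonneg _))
    _ = _ := by ring

lemma kdet_le {m n : ℕ} (α : ℝ) (v w : Fin m → E n) (r : E n) :
    |kdet α v w r| ≤ (m.factorial : ℝ) *
      ((1 + |α|) * ((∑ i, ‖v i‖) * (∑ j, ‖w j‖))) ^ m := by
  have h := Matrix.det_le (abv := AbsoluteValue.abs)
    (A := Matrix.of fun i j => inner ℝ (v i) (w j) + α * (inner ℝ (v i) r *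
      inner ℝ r (w j) / ‖r‖ ^ 2)) (x := (1 + |α|) * ((∑ i, ‖v i‖) * (∑ j, ‖w j‖))) (by
    intro i j
    simp only [Matrix.of_apply, AbsoluteValue.abs_apply]
    refine (entry_le α (v i) (w j) r).trans ?_
    apply mul_le_mul_of_nonneg_left _ (by positivity)
    exact mul_le_mul
      (Finset.single_le_sum (f := fun i => ‖v i‖) (fun _ _ => norm_nonneg _) (Finset.mem_univ i))
      (Finset.single_le_sum (f := fun i => ‖w i‖) (fun _ _ => norm_nonneg _) (Finset.mem_univ j))
      (norm_nonneg _) (Finset.sum_nonneg fun _ _ => norm_nonneg _))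
  simpa [kdet, nsmul_eq_mul] using h

lemma pd_contDiff {m n : ℕ} {γ : E m → E n} (hγ : ContDiff ℝ ∞ γ) (b : Fin m) :
    ContDiff ℝ ∞ (fun u => pd γ u b) := by
  unfold pd
  exact (hγ.fderiv_right (m := ∞) (by simp)).clm_apply contDiff_const

lemma kdet_contDiffOn {X : Type} [NormedAddCommGroup X] [NormedSpace ℝ X] {m n : ℕ} (α : ℝ)
    {v w : X → Fin m → E n} {r : X → E n} {S : Set X}
    (hv : ∀ i, ContDiffOn ℝ ∞ (fun x => v x i) S) (hw : ∀ i, ContDiffOn ℝ ∞ (fun x => w x i) S)
    (hr : ContDiffOn ℝ ∞ r S) (h0 : ∀ x ∈ S, r x ≠ 0) :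
    ContDiffOn ℝ ∞ (fun x => kdet α (v x) (w x) (r x)) S := by
  unfold kdet
  simp only [Matrix.det_apply, Matrix.of_apply]
  apply ContDiffOn.sum
  intro σ _
  apply ContDiffOn.const_smul
  apply contDiffOn_prod
  intro i _
  apply ContDiffOn.add ((hv _).inner ℝ (hw _))
  apply contDiffOn_const.mul
  apply ContDiffOn.div (((hv _).inner ℝ hr).mul (hr.inner ℝ (hw _)))
  · exact hr.norm_sq ℝ
  · intro x hx
    have := norm_ne_zero_iff.mpr (h0 x hx)
    positivity

lemma kdet_measurable {X : Type} [MeasurableSpace X] {m n : ℕ} (α : ℝ)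
    {v w : X → Fin m → E n} {r : X → E n}
    (hv : ∀ i, Measurable (fun x => v x i)) (hw : ∀ i, Measurable (fun x => w x i))
    (hr : Measurable r) : Measurable (fun x => kdet α (v x) (w x) (r x)) := by
  unfold kdet
  simp only [Matrix.det_apply, Matrix.of_apply]
  apply Finset.measurable_sum
  intro σ _
  apply Measurable.const_smul
  apply Finset.measurable_prod
  intro i _
  apply Measurable.add ((hv _).inner (hw _))
  apply Measurable.const_mul
  exact (((hv _).inner hr).mul (hr.inner (hw _))).div (hr.norm.pow_const 2)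

theorem t_ON : S_POLAR → S_HAD → S_PG → S_ON := by
  intro hPOLAR hHAD hPG m n γ hm hγ hinj himm c R hc hcz hcR α
  obtain ⟨q, hq, hqt, hq0, hqneg⟩ := hHAD m n γ hγ
  have hq_ne : ∀ u θ t, θ ≠ 0 → q u θ t ≠ 0 := by
    intro u θ t hθ h0
    rcases eq_or_ne t 0 with rfl | ht
    · rw [hq0] at h0
      apply hθ
      apply himm u
      rw [h0, map_zero]
    · have h1 := hqt u θ t
      rw [h0, smul_zero] at h1
      have h2 := hinj (sub_eq_zero.mp h1.symm)
      rw [add_eq_left] at h2
      rcases smul_eq_zero.mp h2 with h3 | h3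
      · exact ht h3
      · exact hθ h3
  obtain ⟨A, hA1, hA2, hA3⟩ := hPG m hm (fun z u θ t =>
    c z u (u + t • θ) * (kdet α (pd γ u) (pd γ (u + t • θ)) (q u θ t) : ℂ) *
      Complex.exp (z * (Real.log ‖q u θ t‖ : ℂ))) (2 * max R 0)
    (by
      have e1 : ContDiff ℝ ∞ (fun p : ℂ × E m × E m × ℝ => p.2.1 + p.2.2.2 • p.2.2.1) := by
        fun_prop
      have e2 : ContDiff ℝ ∞ (fun p : ℂ × E m × E m × ℝ => q p.2.1 p.2.2.1 p.2.2.2) :=
        hq.comp contDiff_snd
      have e3 : ∀ p : ℂ × E m × E m × ℝ, p ∈ {p : ℂ × E m × E m × ℝ | p.2.2.1 ≠ 0} →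
          q p.2.1 p.2.2.1 p.2.2.2 ≠ 0 := fun p hp => hq_ne _ _ _ hp
      apply ContDiffOn.mul
      · apply ContDiffOn.mul
        · exact (hc.comp (contDiff_fst.prodMk ((contDiff_fst.comp contDiff_snd).prodMk
            e1))).contDiffOn
        · apply Complex.ofRealCLM.contDiff.comp_contDiffOn
          apply kdet_contDiffOn
          · intro i
            exact ((pd_contDiff hγ i).comp (contDiff_fst.comp contDiff_snd)).contDiffOn
          · intro i
            exact ((pd_contDiff hγ i).comp e1).contDiffOn
          · exact e2.contDiffOn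
          · exact e3
      · apply ContDiffOn.cexp
        apply contDiff_fst.contDiffOn.mul
        apply Complex.ofRealCLM.contDiff.comp_contDiffOn
        apply ContDiffOn.log
        · exact e2.contDiffOn.norm ℝ e3
        · intro p hp
          exact norm_ne_zero_iff.mpr (e3 p hp))
    (by
      intro u θ t hθ
      apply Differentiable.mul
      · exact (hcz u (u + t • θ)).mul (differentiable_const _)
      · exact (differentiable_id.mul (differentiable_const _)).cexp)
    (by
      intro z u θ t hθ hR
      have : c z u (u + t • θ) = 0 := by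
        apply hcR
        by_contra hne
        push Not at hne
        have h1 : ‖t • θ‖ ≤ 2 * max R 0 := by
          have : t • θ = (u + t • θ) - u := by abel
          rw [this]
          refine (norm_sub_le _ _).trans ?_
          have := le_max_left R 0
          linarith
        have h2 : |t| ≤ ‖t • θ‖ := by
          rw [norm_smul, Real.norm_eq_abs]
          exact le_mul_of_one_le_right (abs_nonneg _) hθ
        rcases hR with h3 | h3
        · have := le_max_left R 0
          have := le_max_right R 0
          linarith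
        · linarith
      simp only [this, zero_mul])
    (by
      intro z u θ t
      simp only [neg_smul_neg, hqneg, kdet_neg, norm_neg])
  refine ⟨A, hA1, hA2, ?_⟩
  intro s hs
  rw [← hA3 s hs]
  congr 1
  apply integral_congr_ae
  filter_upwards with u
  rw [← integral_add_left_eq_self _ u, hPOLAR m hm]
  · apply setIntegral_congr_fun
    · have : Ann m = Metric.closedBall 0 (Real.exp 1) \ Metric.ball 0 1 := by
        ext θ
        simp [Ann, and_comm]
      rw [this]
      exact measurableSet_closedBall.diff measurableSet_ball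
    · intro θ hθ
      have hθ0 : θ ≠ 0 := by
        rintro rfl
        have := hθ.1
        simp at this
        linarith
      apply setIntegral_congr_fun measurableSet_Ioi
      intro t ht
      have ht0 : (0 : ℝ) < t := ht
      have e1 : γ u - γ (u + t • θ) = (-t) • q u θ t := by
        rw [neg_smul, hqt]; abel
      have hqn : 0 < ‖q u θ t‖ := norm_pos_iff.mpr (hq_ne u θ t hθ0)
      have e2 : ‖(-t) • q u θ t‖ ^ s = t ^ s * Real.exp (s * Real.log ‖q u θ t‖) := by
        rw [norm_smul, norm_neg, Real.norm_eq_abs, abs_of_pos ht0,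
          Real.mul_rpow ht0.le hqn.le, Real.rpow_def_of_pos hqn, mul_comm s]
      have e3 : (t : ℂ) ^ ((s : ℂ) + m - 1) = (t : ℂ) ^ (m - 1) * ((t ^ s : ℝ) : ℂ) := by
        rw [Complex.ofReal_cpow ht0.le, ← Complex.cpow_natCast, ← Complex.cpow_add _ _
          (by exact_mod_cast ht0.ne')]
        congr 1
        rw [Nat.cast_sub hm]
        push_cast
        ring
      simp only [e1, kdet_smul α _ _ _ (neg_ne_zero.mpr ht0.ne'), e2, e3]
      push_cast
      ring
  · have hcc : Continuous fun x : E m => c s u (u + x) :=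
      hc.continuous.comp (by fun_prop : Continuous fun x : E m => ((s : ℂ), u, u + x))
    have hpc : ∀ i, Continuous fun x : E m => pd γ (u + x) i := fun i =>
      (pd_contDiff hγ i).continuous.comp (by fun_prop)
    have hγc : Continuous fun x : E m => γ u - γ (u + x) :=
      continuous_const.sub (hγ.continuous.comp (by fun_prop))
    have hG : Integrable fun x : E m => ‖c s u (u + x)‖ * (((m.factorial : ℝ) *
        ((1 + |α|) * ((∑ i, ‖pd γ u i‖) * (∑ j, ‖pd γ (u + x) j‖))) ^ m) *
        ‖γ u - γ (u + x)‖ ^ s) := by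
      apply Continuous.integrable_of_hasCompactSupport
      · apply hcc.norm.mul
        apply Continuous.mul
        · exact continuous_const.mul ((continuous_const.mul (continuous_const.mul
            (continuous_finsetSum _ fun i _ => (hpc i).norm))).pow m)
        · exact hγc.norm.rpow_const fun x => Or.inr (by linarith)
      · apply HasCompactSupport.intro (isCompact_closedBall (0 : E m) (R + ‖u‖))
        intro x hx
        have : c s u (u + x) = 0 := by
          apply hcR
          right
          simp only [Metric.mem_closedBall, dist_zero_right, not_le] at hx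
          have h1 : ‖x‖ ≤ ‖u + x‖ + ‖u‖ := by
            have : x = (u + x) - u := by abel
            conv_lhs => rw [this]
            exact norm_sub_le _ _
          linarith
        simp [this]
    refine hG.mono' ?_ ?_
    · apply Measurable.aestronglyMeasurable
      apply hcc.measurable.mul
      apply Complex.measurable_ofReal.comp
      apply Measurable.mul
      · exact kdet_measurable α (fun i => measurable_const) (fun i => (hpc i).measurable)
          hγc.measurable
      · exact (hγc.norm.rpow_const fun x => Or.inr (by linarith)).measurable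
    · filter_upwards with x
      rw [norm_mul, Complex.norm_real, Real.norm_eq_abs, abs_mul,
        abs_of_nonneg (Real.rpow_nonneg (norm_nonneg _) s)]
      apply mul_le_mul_of_nonneg_left _ (norm_nonneg _)
      exact mul_le_mul_of_nonneg_right (kdet_le _ _ _ _) (Real.rpow_nonneg (norm_nonneg _) s)

end Pool.Agent.K3h61.MI
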